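import Pool.Agent.MP_38c1f8_pr.Perc

open MeasureTheory ProbabilityTheory Pool.Agent.MP_38c1f8_pr

theorem Pool.Agent.Results.MP_38c1f8_pr.Counterexample.result :
    ∃ (V : Type) (G : SimpleGraph V), Infinite V ∧ G.Connected ∧
      (∀ v : V, (G.neighborSet v).encard = 4) ∧ IsQuasiIsometric G squareGrid ∧
      (∀ S : Set V, ¬ IsFortress G S) ∧
      ∃ p : unitInterval, 0 < p ∧ p < 1 ∧
        Measure.infinitePi (fun _ : V => bernoulliMeasure true false p) (invasionSet G) < 1 :=
  counterexample
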