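import Mathlib
import Pool.Agent.MP_38c1f8_pr.Ln.Prob
import Pool.Agent.MP_38c1f8_pr.Ln.Cls

set_option autoImplicit false

open MeasureTheory ProbabilityTheory Pool.Agent.MP_38c1f8_pr Pool.Agent.MP_38c1f8_pr.Ln

theorem Pool.Agent.Results.MP_38c1f8_pr.LineArrangements.result :
    ∀ (L : Set (Set ℂ)) (M : ℕ), L.Nonempty → (∀ l ∈ L, IsLine l) →
      (∀ z : ℂ, {l ∈ L | z ∈ l}.encard ≤ 2) →
      (∀ l ∈ L, ∀ z ∈ l, ∃ v ∈ crossings L, v ∈ l ∧ dist z v ≤ M) →
      (∀ z : ℂ, (crossings L ∩ Metric.closedBall z 1).encard ≤ M) →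
      Infinite (crossings L) ∧ (lineGraph L).Connected ∧
      (∀ v, ((lineGraph L).neighborSet v).encard = 4) ∧
      IsQuasiIsometric (lineGraph L) squareGrid ∧
      (∀ S, ¬ IsFortress (lineGraph L) S) ∧
      ∀ p : unitInterval, 0 < p → p < 1 →
        Measure.infinitePi (fun _ : crossings L => bernoulliMeasure true false p)
          (invasionSet (lineGraph L)) = 1 := by
  intro L M hL h1 h2 h3 h4
  have h : Arr L M := ⟨h1, h2, h3, h4⟩
  exact ⟨(h.cls hL).1, (h.cls hL).2.1, h.regular, (h.cls hL).2.2, h.no_fortress,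
    fun p p0 p1 => h.main p0 p1⟩
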